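import Mathlib
import Pool.Agent.W5h9.DivSub

/-!
# Exact q-divisible subdivision numbers of cycles and of disjoint unions of cycles

For every `q ≥ 2` and every graph `H` that is a disjoint union of cycles (so `H` has as many edges
as vertices, `n = m`), the least `f` such that every `ℤ_q`-edge-weighted `K_f` contains a
`q`-divisible subdivision of `H` is `m (q - 1) + n`.
-/

namespace Pool.Agent.Results.MP_0dbebe_co.CycleUnions

/-- The weight of a path of a complete graph, given by the list of its consecutive vertices, for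
the edge weights `ω`: the sum of the weights of its edges. -/
def pathWeight {q : ℕ} {V : Type} (ω : Sym2 V → ZMod q) : List V → ZMod q
  | x :: y :: l => ω s(x, y) + pathWeight ω (y :: l)
  | _ => 0

/-- A `q`-divisible subdivision of the graph `H` in the complete graph on `V` with the edge weights
`ω`: distinct branch vertices, and for all adjacent `u`, `v` of `H` the list `inner u v` of the
interior vertices (in the order from `u` to `v`) of a path from `branch u` to `branch v` of weight
`0` in `ZMod q`; reading the path from `v` to `u` gives the reversed list, the interior vertices of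
a path are distinct, they are not branch vertices, and the interiors of the paths of two different
edges are disjoint. -/
structure DivisibleSubdivision {U V : Type} (q : ℕ) (ω : Sym2 V → ZMod q) (H : SimpleGraph U) where
  /-- the branch vertices -/
  branch : U → V
  /-- the interior vertices of the subdivision paths -/
  inner : U → U → List V
  branch_injective : Function.Injective branch
  inner_symm : ∀ u v, H.Adj u v → inner v u = (inner u v).reverse
  inner_nodup : ∀ u v, H.Adj u v → (inner u v).Nodup
  inner_ne_branch : ∀ u v, H.Adj u v → ∀ x ∈ inner u v, ∀ w, x ≠ branch w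
  inner_disjoint : ∀ u v u' v', H.Adj u v → H.Adj u' v' → s(u, v) ≠ s(u', v') →
    List.Disjoint (inner u v) (inner u' v')
  weight_eq_zero : ∀ u v, H.Adj u v →
    pathWeight ω (branch u :: (inner u v ++ [branch v])) = 0

/-- `f` has the property defining `s_q(H)`: every `ℤ_q`-edge-weighted complete graph on `f`
vertices contains a `q`-divisible subdivision of `H`. -/
def Forces {U : Type} (q : ℕ) (H : SimpleGraph U) (f : ℕ) : Prop :=
  ∀ ω : Sym2 (Fin f) → ZMod q, Nonempty (DivisibleSubdivision q ω H)

/-- The disjoint union of the cycles of lengths `m j`, `j` in `ι`. -/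
def cycles {ι : Type} (m : ι → ℕ) : SimpleGraph (Σ j : ι, Fin (m j)) where
  Adj x y := ∃ (j : ι) (a b : Fin (m j)), x = ⟨j, a⟩ ∧ y = ⟨j, b⟩ ∧
    (SimpleGraph.cycleGraph (m j)).Adj a b
  symm := ⟨by
    rintro x y ⟨j, a, b, hx, hy, h⟩
    exact ⟨j, b, a, hy, hx, h.symm⟩⟩
  loopless := ⟨by
    rintro x ⟨j, a, b, hx, hy, h⟩
    rw [hx] at hy
    simp only [Sigma.mk.injEq, heq_eq_eq, true_and] at hy
    rw [hy] at h
    exact h.ne rfl⟩

section Proof

open Pool.Agent.W5h9.DivSub

variable {ι : Type}

/-- The successor of a vertex on its cycle. -/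
def nxt (n : ι → ℕ) (x : Σ j : ι, Fin (n j + 3)) : Σ j : ι, Fin (n j + 3) := ⟨x.1, x.2 + 1⟩

lemma two_ne (k : ℕ) (a : Fin (k + 3)) : a + 1 + 1 ≠ a := by
  intro h
  rw [add_assoc] at h
  have h1 : (1 : Fin (k + 3)) + 1 = 0 := by
    have := add_left_cancel (a := a) (b := 1 + 1) (c := 0) (by rw [h, add_zero])
    exact this
  have h2 := congrArg Fin.val h1
  rw [Fin.val_add] at h2
  simp only [Fin.val_one, Fin.val_zero] at h2
  rw [Nat.mod_eq_of_lt (by omega)] at h2
  omega

lemma one_ne (k : ℕ) (a : Fin (k + 3)) : a + 1 ≠ a := by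
  intro h
  exact two_ne k a (by rw [h, h])

lemma nxt_nxt_ne (n : ι → ℕ) (x : Σ j : ι, Fin (n j + 3)) : nxt n (nxt n x) ≠ x := by
  obtain ⟨j, a⟩ := x
  intro h
  simp only [nxt, Sigma.mk.injEq, heq_eq_eq, true_and] at h
  exact two_ne _ _ h

lemma nxt_ne (n : ι → ℕ) (x : Σ j : ι, Fin (n j + 3)) : nxt n x ≠ x := by
  obtain ⟨j, a⟩ := x
  intro h
  simp only [nxt, Sigma.mk.injEq, heq_eq_eq, true_and] at h
  exact one_ne _ _ h

lemma adj_iff (n : ι → ℕ) (x y : Σ j : ι, Fin (n j + 3)) :
    (cycles (fun j => n j + 3)).Adj x y ↔ y = nxt n x ∨ x = nxt n y := by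
  constructor
  · rintro ⟨j, a, b, rfl, rfl, h⟩
    rw [SimpleGraph.cycleGraph_adj] at h
    rcases h with h | h
    · right
      simp only [nxt, Sigma.mk.injEq, heq_eq_eq, true_and]
      rw [← h]; abel
    · left
      simp only [nxt, Sigma.mk.injEq, heq_eq_eq, true_and]
      rw [← h]; abel
  · rintro (rfl | rfl)
    · obtain ⟨j, a⟩ := x
      refine ⟨j, a, a + 1, rfl, rfl, ?_⟩
      rw [SimpleGraph.cycleGraph_adj]
      right; abel
    · obtain ⟨j, a⟩ := y
      refine ⟨j, a + 1, a, rfl, rfl, ?_⟩
      rw [SimpleGraph.cycleGraph_adj]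
      left; abel

lemma pathWeight_eq {q : ℕ} {V : Type} (ω : Sym2 V → ZMod q) (l : List V) :
    pathWeight ω l = pw (fun x y => ω s(x, y)) l := by
  induction l with
  | nil => rfl
  | cons x l ih =>
    cases l with
    | nil => rfl
    | cons y l => rw [pathWeight, pw, ih]

lemma pathWeight_append {q : ℕ} {V : Type} (ω : Sym2 V → ZMod q) (l : List V) (x y : V) :
    pathWeight ω (l ++ [x] ++ [y]) = pathWeight ω (l ++ [x]) + ω s(x, y) := by
  induction l with
  | nil => simp [pathWeight]
  | cons z l ih =>
    cases l with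
    | nil => simp [pathWeight]
    | cons w l =>
      simp only [List.cons_append, pathWeight] at ih ⊢
      rw [ih, add_assoc]

lemma pathWeight_reverse {q : ℕ} {V : Type} (ω : Sym2 V → ZMod q) (l : List V) :
    pathWeight ω l.reverse = pathWeight ω l := by
  induction l with
  | nil => rfl
  | cons x l ih =>
    cases l with
    | nil => rfl
    | cons y l =>
      rw [List.reverse_cons, List.reverse_cons, pathWeight_append, ← List.reverse_cons, ih,
        pathWeight, add_comm, Sym2.eq_swap]

/-- Upper bound. -/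
lemma upper (q : ℕ) (hq : 2 ≤ q) [Fintype ι] (n : ι → ℕ) (f : ℕ)
    (hf : ∑ j, q * (n j + 3) ≤ f) (ω : Sym2 (Fin f) → ZMod q) :
    Nonempty (DivisibleSubdivision q ω (cycles (fun j => n j + 3))) := by
  classical
  have : NeZero q := ⟨by omega⟩
  have hemb : Nonempty ((Σ j : ι, Fin (q * (n j + 3))) ↪ Fin f) := by
    apply Function.Embedding.nonempty_of_card_le
    simpa using hf
  obtain ⟨E⟩ := hemb
  let R : ι → Finset (Fin f) := fun j => Finset.univ.image (fun i => E ⟨j, i⟩)
  have hRc : ∀ j, (R j).card = q * (n j + 3) := by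
    intro j
    rw [Finset.card_image_of_injective _ (fun a b hab => by
      have := E.injective hab
      simpa using this)]
    simp
  have hRd : ∀ j j' x, x ∈ R j → x ∈ R j' → j = j' := by
    intro j j' x h1 h2
    simp only [R, Finset.mem_image, Finset.mem_univ, true_and] at h1 h2
    obtain ⟨a, ha⟩ := h1
    obtain ⟨b, hb⟩ := h2
    have := E.injective (ha.trans hb.symm)
    exact (Sigma.mk.inj_iff.1 this).1
  have hex : ∀ j, ∃ (b : Fin (n j + 3) → Fin f) (I : Fin (n j + 3) → List (Fin f)),
      Function.Injective b ∧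
      (∀ a, b a ∈ R j) ∧ (∀ a, (I a).Nodup) ∧ (∀ a, ∀ x ∈ I a, x ∈ R j ∧ ∀ a', x ≠ b a') ∧
      (∀ a a', a ≠ a' → List.Disjoint (I a) (I a')) ∧
      ∀ a, pw (fun x y => ω s(x, y)) (b a :: (I a ++ [b (a + 1)])) = 0 := by
    intro j
    apply cycle_of_zc
    refine main (n j + 3) (by omega) q (ZMod q) (by simp) _ ?_ (R j) ?_
    · intro x y
      rw [Sym2.eq_swap]
    · rw [hRc]
  choose b I hb hbR hnd hI hdis hw using hex
  let J : (Σ j : ι, Fin (n j + 3)) → List (Fin f) := fun x => I x.1 x.2
  have hinner : ∀ x y, (cycles (fun j => n j + 3)).Adj x y →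
      (y = nxt n x ∧ (if y = nxt n x then J x else (J y).reverse) = J x) ∨
      (x = nxt n y ∧ (if y = nxt n x then J x else (J y).reverse) = (J y).reverse) := by
    intro x y h
    rw [adj_iff] at h
    rcases h with h | h
    · left; exact ⟨h, if_pos h⟩
    · right
      refine ⟨h, if_neg ?_⟩
      intro h'
      apply nxt_nxt_ne n x
      rw [← h', ← h]
  have hJb : ∀ x, ∀ z ∈ J x, ∀ w : Σ j : ι, Fin (n j + 3), z ≠ b w.1 w.2 := by
    rintro ⟨j, a⟩ z hz ⟨j', a'⟩ he
    have h1 := hI j a z hz
    have h2 : z ∈ R j' := by rw [he]; exact hbR j' a'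
    have : j = j' := hRd j j' z h1.1 h2
    subst this
    exact h1.2 a' he
  have hJd : ∀ x x', x ≠ x' → List.Disjoint (J x) (J x') := by
    rintro ⟨j, a⟩ ⟨j', a'⟩ hne z hz hz'
    have h1 := (hI j a z hz).1
    have h2 := (hI j' a' z hz').1
    have : j = j' := hRd j j' z h1 h2
    subst this
    refine hdis j a a' ?_ hz hz'
    rintro rfl
    exact hne rfl
  refine ⟨⟨fun x => b x.1 x.2, fun x y => if y = nxt n x then J x else (J y).reverse,
    ?_, ?_, ?_, ?_, ?_, ?_⟩⟩
  · rintro ⟨j, a⟩ ⟨j', a'⟩ h
    simp only at h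
    have : j = j' := hRd j j' (b j a) (hbR j a) (by rw [h]; exact hbR j' a')
    subst this
    rw [hb j h]
  · intro x y h
    show (if x = nxt n y then J y else (J x).reverse) =
      (if y = nxt n x then J x else (J y).reverse).reverse
    rcases hinner x y h with ⟨h1, h2⟩ | ⟨h1, h2⟩
    · rw [h2, if_neg]
      intro h'
      apply nxt_nxt_ne n x
      rw [← h1, ← h']
    · rw [h2, if_pos h1, List.reverse_reverse]
  · intro x y h
    show (if y = nxt n x then J x else (J y).reverse).Nodup
    rcases hinner x y h with ⟨_, h2⟩ | ⟨_, h2⟩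
    · rw [h2]; exact hnd _ _
    · rw [h2]; exact List.nodup_reverse.2 (hnd _ _)
  · intro x y h z hz w
    change z ∈ (if y = nxt n x then J x else (J y).reverse) at hz
    rcases hinner x y h with ⟨_, h2⟩ | ⟨_, h2⟩
    · rw [h2] at hz; exact hJb x z hz w
    · rw [h2, List.mem_reverse] at hz; exact hJb y z hz w
  · intro x y x' y' h h' hne
    show List.Disjoint (if y = nxt n x then J x else (J y).reverse)
      (if y' = nxt n x' then J x' else (J y').reverse)
    rcases hinner x y h with ⟨h1, h2⟩ | ⟨h1, h2⟩ <;>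
    rcases hinner x' y' h' with ⟨h1', h2'⟩ | ⟨h1', h2'⟩ <;>
    rw [h2, h2'] <;> intro z hz hz'
    · refine hJd x x' ?_ hz hz'
      rintro rfl
      exact hne (by rw [h1, h1'])
    · rw [List.mem_reverse] at hz'
      refine hJd x y' ?_ hz hz'
      rintro rfl
      exact hne (by rw [h1, h1', Sym2.eq_swap])
    · rw [List.mem_reverse] at hz
      refine hJd y x' ?_ hz hz'
      rintro rfl
      exact hne (by rw [h1, h1', Sym2.eq_swap])
    · rw [List.mem_reverse] at hz hz'
      refine hJd y y' ?_ hz hz'
      rintro rfl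
      exact hne (by rw [h1, h1'])
  · intro x y h
    show pathWeight ω (b x.1 x.2 :: ((if y = nxt n x then J x else (J y).reverse) ++
      [b y.1 y.2])) = 0
    rcases hinner x y h with ⟨h1, h2⟩ | ⟨h1, h2⟩
    · rw [h2, h1, pathWeight_eq]
      exact hw x.1 x.2
    · rw [h2, h1]
      have : b (nxt n y).1 (nxt n y).2 :: ((J y).reverse ++ [b y.1 y.2]) =
          (b y.1 y.2 :: (J y ++ [b (nxt n y).1 (nxt n y).2])).reverse := by
        simp
      rw [this, pathWeight_reverse, pathWeight_eq]
      exact hw y.1 y.2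

lemma pathWeight_one {q : ℕ} {V : Type} (x : V) (l : List V) :
    pathWeight (q := q) (fun _ => 1) (x :: l) = (l.length : ZMod q) := by
  induction l generalizing x with
  | nil => simp [pathWeight]
  | cons y l ih =>
    rw [pathWeight, ih]
    simp only [List.length_cons, Nat.cast_add, Nat.cast_one]
    ring

/-- Lower bound. -/
lemma lower (q : ℕ) (hq : 2 ≤ q) [Fintype ι] (n : ι → ℕ) (f : ℕ)
    (h : Forces q (cycles (fun j => n j + 3)) f) : ∑ j, q * (n j + 3) ≤ f := by
  classical
  obtain ⟨D⟩ := h (fun _ => 1)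
  have hadj : ∀ x, (cycles (fun j => n j + 3)).Adj x (nxt n x) := fun x =>
    (adj_iff n x _).2 (Or.inl rfl)
  have hlen : ∀ x, q ≤ (D.inner x (nxt n x)).length + 1 := by
    intro x
    have h1 := D.weight_eq_zero x (nxt n x) (hadj x)
    rw [pathWeight_one, ZMod.natCast_eq_zero_iff, List.length_append, List.length_singleton] at h1
    exact Nat.le_of_dvd (Nat.succ_pos _) h1
  let g : (Σ j : ι, Fin (n j + 3)) × Fin q → Fin f := fun p =>
    if h : p.2.val = 0 then D.branch p.1 else
      (D.inner p.1 (nxt n p.1))[p.2.val - 1]'(by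
        have := hlen p.1
        have := p.2.isLt
        omega)
  have hsym : ∀ x y, s(x, nxt n x) = s(y, nxt n y) → x = y := by
    intro x y hxy
    rw [Sym2.eq_iff] at hxy
    rcases hxy with ⟨h1, _⟩ | ⟨h1, h2⟩
    · exact h1
    · exfalso
      apply nxt_nxt_ne n y
      rw [← h1, h2]
  have hg : Function.Injective g := by
    rintro ⟨x, i⟩ ⟨y, i'⟩ hxy
    simp only [g] at hxy
    by_cases h1 : i.val = 0
    · by_cases h2 : i'.val = 0
      · rw [dif_pos h1, dif_pos h2] at hxy
        have := D.branch_injective hxy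
        rw [this]
        have : i = i' := Fin.ext (h1.trans h2.symm)
        rw [this]
      · rw [dif_pos h1, dif_neg h2] at hxy
        exact absurd hxy.symm (D.inner_ne_branch y _ (hadj y) _ (List.getElem_mem _) x)
    · by_cases h2 : i'.val = 0
      · rw [dif_neg h1, dif_pos h2] at hxy
        exact absurd hxy (D.inner_ne_branch x _ (hadj x) _ (List.getElem_mem _) y)
      · rw [dif_neg h1, dif_neg h2] at hxy
        have hxy' : x = y := by
          by_contra hne
          have hd := D.inner_disjoint x _ y _ (hadj x) (hadj y) (fun he => hne (hsym x y he))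
          exact hd (List.getElem_mem _) (by rw [hxy]; exact List.getElem_mem _)
        subst hxy'
        have := (List.Nodup.getElem_inj_iff (D.inner_nodup x _ (hadj x))).1 hxy
        have : i = i' := Fin.ext (by omega)
        rw [this]
  have := Fintype.card_le_of_injective g hg
  simp only [Fintype.card_prod, Fintype.card_sigma, Fintype.card_fin, Finset.sum_mul] at this
  calc ∑ j, q * (n j + 3) = ∑ j, (n j + 3) * q := by
        apply Finset.sum_congr rfl
        intro j _
        ring
    _ ≤ f := this

end Proof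

/-- **Theorem.** For every `q ≥ 2` and every finite family of lengths `m j ≥ 3`, the disjoint
union `H` of the cycles of these lengths, which has `∑ j, m j` vertices and `∑ j, m j` edges,
satisfies `s_q(H) = (∑ j, m j) (q - 1) + ∑ j, m j`, as Q1 predicts. -/
theorem result (q : ℕ) (hq : 2 ≤ q) (ι : Type) [Fintype ι] (m : ι → ℕ) (hm : ∀ j, 3 ≤ m j) :
    IsLeast {f : ℕ | Forces q (cycles m) f} ((∑ j, m j) * (q - 1) + ∑ j, m j) := by
  obtain ⟨n, rfl⟩ : ∃ n : ι → ℕ, m = fun j => n j + 3 :=
    ⟨fun j => m j - 3, by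
      funext j
      have := hm j
      show m j = m j - 3 + 3
      omega⟩
  have e : (∑ j, (n j + 3)) * (q - 1) + ∑ j, (n j + 3) = ∑ j, q * (n j + 3) := by
    obtain ⟨k, rfl⟩ : ∃ k, q = k + 1 := ⟨q - 1, by omega⟩
    rw [← Finset.mul_sum, Nat.add_sub_cancel]
    ring
  constructor
  · intro ω
    exact upper q hq n _ e.ge ω
  · intro f hf
    rw [e]
    exact lower q hq n f hf

end Pool.Agent.Results.MP_0dbebe_co.CycleUnions
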