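import Mathlib
import Pool.Agent.W5h9.LogSub4

/-!
# Exact 2-divisible subdivision numbers of all graphs with at least `K n log n` edges

There is an absolute constant `K` such that every graph `H` with `n ≥ 2` vertices and
`m ≥ K n log n` edges satisfies `s_2(H, 1) = s_2(H) = m + n`.
-/

namespace Pool.Agent.Results.MP_0dbebe_co.ManyEdges

/-- The weight of a path of a complete graph, given by the list of its consecutive vertices, for
the edge weights `ω`: the sum of the weights of its edges. -/
def pathWeight {q : ℕ} {V : Type} (ω : Sym2 V → ZMod q) : List V → ZMod q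
  | x :: y :: l => ω s(x, y) + pathWeight ω (y :: l)
  | _ => 0

/-- A `q`-divisible subdivision of the graph `H` in the complete graph on `V` with the edge weights
`ω`: distinct branch vertices, and for all adjacent `u`, `v` of `H` the list `inner u v` of the
interior vertices (in the order from `u` to `v`) of a path from `branch u` to `branch v` of weight
`0` in `ZMod q`; reading the path from `v` to `u` gives the reversed list, the interior vertices of
a path are distinct, they are not branch vertices, and the interiors of the paths of two different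
edges are disjoint. -/
structure DivisibleSubdivision {U V : Type} (q : ℕ) (ω : Sym2 V → ZMod q) (H : SimpleGraph U) where
  /-- the branch vertices -/
  branch : U → V
  /-- the interior vertices of the subdivision paths -/
  inner : U → U → List V
  branch_injective : Function.Injective branch
  inner_symm : ∀ u v, H.Adj u v → inner v u = (inner u v).reverse
  inner_nodup : ∀ u v, H.Adj u v → (inner u v).Nodup
  inner_ne_branch : ∀ u v, H.Adj u v → ∀ x ∈ inner u v, ∀ w, x ≠ branch w
  inner_disjoint : ∀ u v u' v', H.Adj u v → H.Adj u' v' → s(u, v) ≠ s(u', v') →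
    List.Disjoint (inner u v) (inner u' v')
  weight_eq_zero : ∀ u v, H.Adj u v →
    pathWeight ω (branch u :: (inner u v ++ [branch v])) = 0

/-- `f` has the property defining `s_q(H)`: every `ℤ_q`-edge-weighted complete graph on `f`
vertices contains a `q`-divisible subdivision of `H`. -/
def Forces {U : Type} (q : ℕ) (H : SimpleGraph U) (f : ℕ) : Prop :=
  ∀ ω : Sym2 (Fin f) → ZMod q, Nonempty (DivisibleSubdivision q ω H)

/-- `f` has the property defining `s_q(H, t)`: every `ℤ_q`-edge-weighted complete graph on `f`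
vertices contains a `q`-divisible subdivision of `H` in which every subdivision path has exactly
`t` interior vertices. -/
def ForcesLength {U : Type} (q t : ℕ) (H : SimpleGraph U) (f : ℕ) : Prop :=
  ∀ ω : Sym2 (Fin f) → ZMod q, ∃ D : DivisibleSubdivision q ω H,
    ∀ u v, H.Adj u v → (D.inner u v).length = t

section Proof

open Classical in
/-- The edges as increasing pairs. -/
noncomputable def edges {n : ℕ} (H : SimpleGraph (Fin n)) : Finset (Fin n × Fin n) :=
  Finset.univ.filter (fun e => e.1 < e.2 ∧ H.Adj e.1 e.2)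

lemma mem_edges {n : ℕ} (H : SimpleGraph (Fin n)) (e : Fin n × Fin n) :
    e ∈ edges H ↔ e.1 < e.2 ∧ H.Adj e.1 e.2 := by
  simp [edges]

lemma card_edges {n : ℕ} (H : SimpleGraph (Fin n)) : (edges H).card = H.edgeSet.ncard := by
  classical
  rw [← Set.ncard_coe_finset]
  apply Set.ncard_congr (fun e _ => s(e.1, e.2))
  · intro e he
    rw [Finset.mem_coe, mem_edges] at he
    exact he.2
  · intro e e' he he' h
    rw [Finset.mem_coe, mem_edges] at he he'
    rw [Sym2.eq_iff] at h
    rcases h with ⟨h1, h2⟩ | ⟨h1, h2⟩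
    · exact Prod.ext h1 h2
    · have a1 := he.1
      have a2 := he'.1
      rw [h1, h2] at a1
      exact absurd a1 (not_lt.2 a2.le)
  · intro z hz
    induction z using Sym2.ind with
    | _ x y =>
      rw [SimpleGraph.mem_edgeSet] at hz
      rcases lt_or_gt_of_ne hz.ne with h | h
      · exact ⟨(x, y), by rw [Finset.mem_coe, mem_edges]; exact ⟨h, hz⟩, rfl⟩
      · exact ⟨(y, x), by rw [Finset.mem_coe, mem_edges]; exact ⟨h, hz.symm⟩, Sym2.eq_swap⟩

lemma minmax_mem {n : ℕ} (H : SimpleGraph (Fin n)) {u v : Fin n} (h : H.Adj u v) :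
    (min u v, max u v) ∈ edges H := by
  rw [mem_edges]
  rcases lt_or_gt_of_ne h.ne with h1 | h1
  · rw [min_eq_left h1.le, max_eq_right h1.le]; exact ⟨h1, h⟩
  · rw [min_eq_right h1.le, max_eq_left h1.le]; exact ⟨h1, h.symm⟩

/-- Upper bound from a choice of branch vertices and middle vertices. -/
lemma upper {n f : ℕ} (H : SimpleGraph (Fin n))
    (hyp : ∀ c : Fin f → Fin f → Bool, ∃ φ : Fin n → Fin f, Function.Injective φ ∧
      ∃ ψ : edges H → Fin f, Function.Injective ψ ∧
        ∀ e : edges H, (∀ u, ψ e ≠ φ u) ∧ c (ψ e) (φ e.1.1) = c (ψ e) (φ e.1.2)) :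
    ForcesLength 2 1 H f := by
  classical
  intro ω
  obtain ⟨φ, hφ, ψ, hψ, hc⟩ := hyp (fun w x => decide (ω s(w, x) = 0))
  have hz : ∀ a : ZMod 2, a = 0 ∨ a = 1 := by decide
  have hsum : ∀ e : edges H, ω s(φ e.1.1, ψ e) + ω s(ψ e, φ e.1.2) = 0 := by
    intro e
    have h := (hc e).2
    rw [decide_eq_decide] at h
    rw [Sym2.eq_swap]
    rcases hz (ω s(ψ e, φ e.1.1)) with h1 | h1 <;> rcases hz (ω s(ψ e, φ e.1.2)) with h2 | h2
    · rw [h1, h2]; rfl
    · exfalso
      rw [h1, h2] at h
      exact absurd (h.1 rfl) (by decide)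
    · exfalso
      rw [h1, h2] at h
      exact absurd (h.2 rfl) (by decide)
    · rw [h1, h2]; rfl
  let I : Fin n → Fin n → List (Fin f) := fun u v =>
    if h : (min u v, max u v) ∈ edges H then [ψ ⟨(min u v, max u v), h⟩] else []
  have hI : ∀ u v (h : H.Adj u v), I u v = [ψ ⟨(min u v, max u v), minmax_mem H h⟩] := by
    intro u v h
    exact dif_pos (minmax_mem H h)
  have hIs : ∀ u v, I u v = I v u := by
    intro u v
    simp only [I, min_comm u v, max_comm u v]
  refine ⟨⟨φ, I, hφ, ?_, ?_, ?_, ?_, ?_⟩, ?_⟩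
  · intro u v h
    rw [hIs v u, hI u v h]; rfl
  · intro u v h
    rw [hI u v h]; exact List.nodup_singleton _
  · intro u v h x hx w
    rw [hI u v h, List.mem_singleton] at hx
    rw [hx]
    exact (hc _).1 w
  · intro u v u' v' h h' hne
    rw [hI u v h, hI u' v' h']
    intro x hx hx'
    rw [List.mem_singleton] at hx hx'
    have h1 := hψ (hx.symm.trans hx')
    rw [Subtype.mk.injEq, Prod.mk.injEq] at h1
    apply hne
    rcases le_total u v with h2 | h2 <;> rcases le_total u' v' with h3 | h3
    · rw [min_eq_left h2, max_eq_right h2, min_eq_left h3, max_eq_right h3] at h1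
      rw [h1.1, h1.2]
    · rw [min_eq_left h2, max_eq_right h2, min_eq_right h3, max_eq_left h3] at h1
      rw [h1.1, h1.2, Sym2.eq_swap]
    · rw [min_eq_right h2, max_eq_left h2, min_eq_left h3, max_eq_right h3] at h1
      rw [h1.1, h1.2, Sym2.eq_swap]
    · rw [min_eq_right h2, max_eq_left h2, min_eq_right h3, max_eq_left h3] at h1
      rw [h1.1, h1.2]
  · intro u v h
    rw [hI u v h]
    show ω s(φ u, ψ _) + (ω s(ψ _, φ v) + 0) = 0
    rw [add_zero]
    have h1 := hsum ⟨(min u v, max u v), minmax_mem H h⟩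
    simp only at h1
    rcases le_total u v with h2 | h2
    · have e1 : min u v = u := min_eq_left h2
      have e2 : max u v = v := max_eq_right h2
      calc ω s(φ u, ψ ⟨(min u v, max u v), minmax_mem H h⟩) +
            ω s(ψ ⟨(min u v, max u v), minmax_mem H h⟩, φ v)
          = ω s(φ (min u v), ψ ⟨(min u v, max u v), minmax_mem H h⟩) +
            ω s(ψ ⟨(min u v, max u v), minmax_mem H h⟩, φ (max u v)) := by
            congr 3 <;> simp [e1, e2]
        _ = 0 := h1
    · have e1 : min u v = v := min_eq_right h2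
      have e2 : max u v = u := max_eq_left h2
      calc ω s(φ u, ψ ⟨(min u v, max u v), minmax_mem H h⟩) +
            ω s(ψ ⟨(min u v, max u v), minmax_mem H h⟩, φ v)
          = ω s(φ (max u v), ψ ⟨(min u v, max u v), minmax_mem H h⟩) +
            ω s(ψ ⟨(min u v, max u v), minmax_mem H h⟩, φ (min u v)) := by
            congr 3 <;> simp [e1, e2]
        _ = ω s(φ (min u v), ψ ⟨(min u v, max u v), minmax_mem H h⟩) +
            ω s(ψ ⟨(min u v, max u v), minmax_mem H h⟩, φ (max u v)) := by
            rw [add_comm, Sym2.eq_swap (a := ψ _) (b := φ (min u v)),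
              Sym2.eq_swap (a := φ (max u v))]
        _ = 0 := h1
  · intro u v h
    show (I u v).length = 1
    rw [hI u v h]; rfl

/-- Lower bound. -/
lemma lower {n f : ℕ} (H : SimpleGraph (Fin n)) (h : Forces 2 H f) :
    H.edgeSet.ncard + n ≤ f := by
  classical
  obtain ⟨D⟩ := h (fun _ => 1)
  have hne : ∀ u v, H.Adj u v → D.inner u v ≠ [] := by
    intro u v huv h0
    have h1 := D.weight_eq_zero u v huv
    rw [h0] at h1
    simp [pathWeight] at h1
  let g : edges H ⊕ Fin n → Fin f := fun z => match z with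
    | Sum.inl e => (D.inner e.1.1 e.1.2).head (hne _ _ ((mem_edges H e.1).1 e.2).2)
    | Sum.inr u => D.branch u
  have hg : Function.Injective g := by
    rintro (e | u) (e' | u') hzz
    · simp only [g] at hzz
      congr 1
      by_contra hee
      have ha := ((mem_edges H e.1).1 e.2)
      have ha' := ((mem_edges H e'.1).1 e'.2)
      have hs : s(e.1.1, e.1.2) ≠ s(e'.1.1, e'.1.2) := by
        intro hs
        rw [Sym2.eq_iff] at hs
        rcases hs with ⟨h1, h2⟩ | ⟨h1, h2⟩
        · exact hee (Subtype.ext (Prod.ext h1 h2))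
        · have a1 := ha.1
          have a2 := ha'.1
          rw [h1, h2] at a1
          exact absurd a1 (not_lt.2 a2.le)
      have hd := D.inner_disjoint _ _ _ _ ha.2 ha'.2 hs
      refine hd (List.head_mem (hne _ _ ha.2)) ?_
      rw [hzz]
      exact List.head_mem _
    · simp only [g] at hzz
      exact absurd hzz (D.inner_ne_branch _ _ ((mem_edges H e.1).1 e.2).2 _
        (List.head_mem _) _)
    · simp only [g] at hzz
      exact absurd hzz.symm (D.inner_ne_branch _ _ ((mem_edges H e'.1).1 e'.2).2 _
        (List.head_mem _) _)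
    · simp only [g] at hzz
      rw [D.branch_injective hzz]
  have := Fintype.card_le_of_injective g hg
  rw [Fintype.card_sum, Fintype.card_coe, Fintype.card_fin, Fintype.card_fin, card_edges] at this
  exact this

end Proof

lemma log_le {n : ℕ} (hn : 2 ≤ n) : ((Nat.log 2 n + 1 : ℕ) : ℝ) ≤ 4 * Real.log n := by
  have h1 : (2 : ℝ) ^ (Nat.log 2 n) ≤ n := by
    exact_mod_cast Nat.pow_log_le_self 2 (by omega : n ≠ 0)
  have h2 : (Nat.log 2 n : ℝ) * Real.log 2 ≤ Real.log n := by
    rw [← Real.log_pow]
    exact Real.log_le_log (by positivity) h1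
  have h3 : (1 : ℝ) / 2 ≤ Real.log 2 := by
    have := Real.log_two_gt_d9
    linarith
  have h4 : Real.log 2 ≤ Real.log n := by
    apply Real.log_le_log (by norm_num)
    exact_mod_cast hn
  have h5 : (0 : ℝ) ≤ Nat.log 2 n := Nat.cast_nonneg _
  push_cast
  nlinarith

/-- **Theorem.** There is an absolute constant `K` such that every graph `H` with `n ≥ 2` vertices
and `m ≥ K n log n` edges satisfies `s_2(H, 1) = m + n` (Q2) and `s_2(H) = m + n` (Q1 for
`q = 2`). -/
theorem result : ∃ K : ℝ, 0 < K ∧ ∀ n : ℕ, 2 ≤ n → ∀ H : SimpleGraph (Fin n),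
    K * n * Real.log n ≤ H.edgeSet.ncard →
    IsLeast {f : ℕ | ForcesLength 2 1 H f} (H.edgeSet.ncard + n) ∧
    IsLeast {f : ℕ | Forces 2 H f} (H.edgeSet.ncard + n) := by
  obtain ⟨K₁, hK₁⟩ := Pool.Agent.W5h9.LogSub.main
  refine ⟨4 * K₁ + 1, by positivity, fun n hn H hH => ?_⟩
  have hlog : 0 ≤ Real.log n := Real.log_natCast_nonneg n
  have hup : ForcesLength 2 1 H (H.edgeSet.ncard + n) := by
    apply upper
    intro c
    refine hK₁ n (by omega) (edges H) (fun e he => ((mem_edges H e).1 he).1) ?_ _ c ?_
    · rw [card_edges]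
      have h1 : ((K₁ * n * (Nat.log 2 n + 1) : ℕ) : ℝ) ≤ H.edgeSet.ncard := by
        refine le_trans ?_ hH
        have h2 := log_le hn
        push_cast at h2 ⊢
        calc (K₁ : ℝ) * n * (Nat.log 2 n + 1) ≤ K₁ * n * (4 * Real.log n) := by gcongr
          _ = 4 * K₁ * n * Real.log n := by ring
          _ ≤ (4 * K₁ + 1) * n * Real.log n := by gcongr; linarith
      exact_mod_cast h1
    · rw [Fintype.card_fin, card_edges]
  have hfl : ∀ f, ForcesLength 2 1 H f → Forces 2 H f := by
    intro f hf ω
    obtain ⟨D, _⟩ := hf ω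
    exact ⟨D⟩
  exact ⟨⟨hup, fun f hf => lower H (hfl f hf)⟩, ⟨hfl _ hup, fun f hf => lower H hf⟩⟩

end Pool.Agent.Results.MP_0dbebe_co.ManyEdges
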